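import Pool.Agent.Helper95.ME.Setup
import Pool.Agent.Helper95.ME.Eis

/-!
# The plane curves `∏ (x - (r_i + σ) z) = z ∏ (y - q_n z)`
-/

set_option autoImplicit false

namespace Pool.Agent.Helper95.ME

open MvPolynomial Module Pool.Agent.Helper95.MI

section

variable {k : Type*} [Field k]

/-- the plane curve, with all rows shifted by `σ` -/
noncomputable def Fs (g : ℕ) (r q : ℕ → k) (σ : k) : SS k :=
  (∏ i ∈ Finset.range g, rowF (r i + σ)) - X 2 * ∏ n ∈ Finset.range (g - 1), colF (q n)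

theorem Fs_prime {g : ℕ} (hg : 1 ≤ g) (r q : ℕ → k) (σ : k) : Prime (Fs g r q σ) :=
  (Fg_irreducible hg (fun i => r i + σ) q).prime

theorem Fs_hom {g : ℕ} (hg : 1 ≤ g) (r q : ℕ → k) (σ : k) : (Fs g r q σ).IsHomogeneous g := by
  have h1 := rows_hom (fun i => r i + σ) (Finset.range g)
  rw [Finset.card_range] at h1
  have h2 : (∏ n ∈ Finset.range (g - 1), colF (q n)).IsHomogeneous (g - 1) := by
    have h := IsHomogeneous.prod (Finset.range (g - 1)) (fun n => colF (q n)) (fun _ => 1)
      (fun n _ => colF_hom _)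
    rwa [Finset.sum_const, Finset.card_range, smul_eq_mul, mul_one] at h
  have h3 := (isHomogeneous_X k (2 : Fin 3)).mul h2
  rw [show 1 + (g - 1) = g by omega] at h3
  exact h1.sub h3

theorem ev1_Fs (g : ℕ) (r q : ℕ → k) (σ : k) : ev1 (Fs g r q σ) = 1 := by
  rw [Fs, map_sub, map_mul, ev1_z, zero_mul, sub_zero]
  exact ev1_rows (fun i => r i + σ) _

theorem Fs_dec {g m : ℕ} (hm : m ≤ g - 1) (r q : ℕ → k) (σ : k) :
    Fs g r q σ = Pr (fun i => r i + σ) 0 g -
      al (fun n => colF (q n)) m * (X 2 * ∏ n ∈ Finset.Ico m (g - 1), colF (q n)) := by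
  have h1 := Finset.prod_range_mul_prod_Ico (fun n => colF (q n)) hm
  rw [Fs, Pr, ← Finset.range_eq_Ico, al, ← h1]
  ring

/-- the coefficients of `Fs` as a polynomial in `σ` -/
noncomputable def shP (g : ℕ) (r q : ℕ → k) : Polynomial (SS k) :=
  (∏ i ∈ Finset.range g, (Polynomial.C (rowF (r i)) - Polynomial.C (X 2) * Polynomial.X)) -
    Polynomial.C (X 2 * ∏ n ∈ Finset.range (g - 1), colF (q n))

theorem factor_natDegree (a b : SS k) :
    (Polynomial.C a - Polynomial.C b * Polynomial.X).natDegree ≤ 1 := by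
  refine (Polynomial.natDegree_sub_le _ _).trans (max_le ?_ ?_)
  · rw [Polynomial.natDegree_C]
    exact Nat.zero_le 1
  · exact (Polynomial.natDegree_C_mul_le _ _).trans Polynomial.natDegree_X_le

theorem shP_eval (g : ℕ) (r q : ℕ → k) (σ : k) :
    (shP g r q).eval (algebraMap k (SS k) σ) = Fs g r q σ := by
  rw [shP, Polynomial.eval_sub, Polynomial.eval_prod, Polynomial.eval_C, Fs]
  congr 1
  refine Finset.prod_congr rfl fun i _ => ?_
  rw [Polynomial.eval_sub, Polynomial.eval_mul, Polynomial.eval_C, Polynomial.eval_C,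
    Polynomial.eval_X, MvPolynomial.algebraMap_eq, rowF, rowF, C_add]
  ring

theorem shP_natDegree (g : ℕ) (r q : ℕ → k) : (shP g r q).natDegree ≤ g := by
  rw [shP]
  refine (Polynomial.natDegree_sub_le _ _).trans (max_le ?_ ?_)
  · refine (Polynomial.natDegree_prod_le _ _).trans ?_
    refine (Finset.sum_le_sum fun i _ => factor_natDegree _ _).trans ?_
    rw [Finset.sum_const, Finset.card_range, smul_eq_mul, mul_one]
  · rw [Polynomial.natDegree_C]
    exact Nat.zero_le g

theorem shP_coeff {g : ℕ} (hg : 1 ≤ g) (r q : ℕ → k) :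
    (shP g r q).coeff g = (-X 2) ^ g := by
  rw [shP, Polynomial.coeff_sub, Polynomial.coeff_C, if_neg (by omega), sub_zero]
  have h1 := Polynomial.coeff_prod_of_natDegree_le (Finset.range g)
    (fun i => Polynomial.C (rowF (r i)) - Polynomial.C (X 2 : SS k) * Polynomial.X) 1
    (fun i _ => factor_natDegree _ _)
  rw [Finset.card_range, mul_one] at h1
  rw [h1]
  have h2 : ∀ i ∈ Finset.range g, (Polynomial.C (rowF (r i)) -
      Polynomial.C (X 2 : SS k) * Polynomial.X).coeff 1 = -X 2 := by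
    intro i _
    rw [Polynomial.coeff_sub, Polynomial.coeff_C_mul, Polynomial.coeff_X_one,
      Polynomial.coeff_C, if_neg one_ne_zero, mul_one, zero_sub]
  rw [Finset.prod_congr rfl h2, Finset.prod_const, Finset.card_range]

theorem Reg.neg' {S : Type*} [CommRing S] {v : S} {I : Ideal S} (hv : Reg v I) : Reg (-v) I := by
  intro f hf
  apply hv
  rw [mul_neg] at hf
  exact (Ideal.neg_mem_iff I).1 hf

theorem finite_shift {F : SS k} (hF : ev1 F ≠ 0) {g : ℕ} (hg : 1 ≤ g) (r q : ℕ → k) (q₀ : k) :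
    {σ : k | ¬ Reg (Fs g r q σ) (Ideal.span {F} ⊔ Ideal.span {colF q₀})}.Finite := by
  have h1 := finite_bad (k := k) (Ideal.span {F} ⊔ Ideal.span {colF q₀} : Ideal (SS k))
    (N := g + 1) (j₀ := g) (by omega) (fun j => (shP g r q).coeff j) (by
      have h2 : Reg ((shP g r q).coeff g) (Ideal.span {F} ⊔ Ideal.span {colF q₀}) := by
        rw [shP_coeff hg]
        exact (reg_z hF).neg'.pow g
      exact h2)
  refine h1.subset ?_
  intro σ hσ
  rw [Set.mem_ofPred_eq] at hσ ⊢
  intro h3
  apply hσ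
  have h4 : Fs g r q σ = ∑ j ∈ Finset.range (g + 1),
      algebraMap k (SS k) σ ^ j * (shP g r q).coeff j := by
    rw [← shP_eval, Polynomial.eval_eq_sum_range' (Nat.lt_succ_of_le (shP_natDegree g r q))]
    exact Finset.sum_congr rfl fun j _ => mul_comm _ _
  intro f hf
  rw [h4] at hf
  exact h3 f hf

end

end Pool.Agent.Helper95.ME
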